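import Pool.Agent.Helper29.RS.SlimG

set_option autoImplicit false

namespace Pool.Agent.Results.MP_ffd2c1_ag.GaleDuality

open MvPolynomial Matrix

/-- `{F = 0} ⊂ ℙ⁵` is a smooth cubic fourfold. -/
def SmoothCubic (F : MvPolynomial (Fin 6) ℂ) : Prop :=
  F.IsHomogeneous 3 ∧ ∀ x : Fin 6 → ℂ, (∀ i, eval x (pderiv i F) = 0) → ∀ i, x i = 0

/-- `{F = 0}` and `{F' = 0}` are birational: the affine equations `F (1, x₁, ..., x₅)` and
`F' (1, x₁, ..., x₅)` generate prime ideals, and the fraction fields of the quotients are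
isomorphic. -/
def Birational (F F' : MvPolynomial (Fin 6) ℂ) : Prop :=
  (Ideal.span {aeval (Fin.cons 1 X : Fin 6 → MvPolynomial (Fin 5) ℂ) F}).IsPrime ∧
    (Ideal.span {aeval (Fin.cons 1 X : Fin 6 → MvPolynomial (Fin 5) ℂ) F'}).IsPrime ∧
    Nonempty (FractionRing (MvPolynomial (Fin 5) ℂ ⧸
        Ideal.span {aeval (Fin.cons 1 X : Fin 6 → MvPolynomial (Fin 5) ℂ) F}) ≃ₐ[ℂ]
      FractionRing (MvPolynomial (Fin 5) ℂ ⧸
        Ideal.span {aeval (Fin.cons 1 X : Fin 6 → MvPolynomial (Fin 5) ℂ) F'}))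

/-- `{F = 0}` is rational: the affine equation `F (1, x₁, ..., x₅)` generates a prime ideal, and the
fraction field of the quotient is a purely transcendental extension of `ℂ` of degree four. -/
def IsRational (F : MvPolynomial (Fin 6) ℂ) : Prop :=
  (Ideal.span {aeval (Fin.cons 1 X : Fin 6 → MvPolynomial (Fin 5) ℂ) F}).IsPrime ∧
    Nonempty (FractionRing (MvPolynomial (Fin 5) ℂ ⧸
        Ideal.span {aeval (Fin.cons 1 X : Fin 6 → MvPolynomial (Fin 5) ℂ) F}) ≃ₐ[ℂ]
      FractionRing (MvPolynomial (Fin 4) ℂ))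

/-- The pairs `(B, l)` and `(B', l')` of a `3 × 3` matrix and a triple of linear forms in six
variables are Gale dual: `(B(x), l(x))` and `(B'(x'), l'(x'))` are orthogonal in `M₃(ℂ) × ℂ³` for
all `x`, `x'`. -/
def GaleDual (B B' : Matrix (Fin 3) (Fin 3) (MvPolynomial (Fin 6) ℂ))
    (l l' : Fin 3 → MvPolynomial (Fin 6) ℂ) : Prop :=
  (∀ i j, (B i j).IsHomogeneous 1 ∧ (B' i j).IsHomogeneous 1) ∧
  (∀ i, (l i).IsHomogeneous 1 ∧ (l' i).IsHomogeneous 1) ∧
  ∀ x x' : Fin 6 → ℂ, ∑ i, ∑ j, eval x (B i j) * eval x' (B' i j) +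
    ∑ i, eval x (l i) * eval x' (l' i) = 0

/-- The span of the set `S` modulo `δ` has even dimension. -/
def EvenDim (δ : MvPolynomial (Fin 3) ℂ) (S : Set (MvPolynomial (Fin 3) ℂ)) : Prop :=
  ∃ (n : ℕ) (b : Fin (2 * n) → MvPolynomial (Fin 3) ℂ), (∀ i, b i ∈ S) ∧
    (∀ c : Fin (2 * n) → ℂ, δ ∣ ∑ i, C (c i) * b i → ∀ i, c i = 0) ∧
    ∀ s ∈ S, ∃ c : Fin (2 * n) → ℂ, δ ∣ s - ∑ i, C (c i) * b i

/-- The quadric surface bundle over the plane with matrix `N` has a rational section. -/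
def RationalSection (N : Matrix (Fin 4) (Fin 4) (MvPolynomial (Fin 3) ℂ)) : Prop :=
  ∃ v : Fin 4 → MvPolynomial (Fin 3) ℂ, v ≠ 0 ∧ v ⬝ᵥ N *ᵥ v = 0

/-- There is a plane curve `{μ = 0}`, without the component `D = {det N = 0}`, all whose components
split in the double plane branched over `D` (`det N` is a square on each of them), which gives an
even theta characteristic on `D`.  The theta characteristic is that of the form `ρ` of odd degree
among `μ` and `μ * N.adjugate 3 3` (the cubic form `N.adjugate 3 3` cuts out twice the divisor of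
the section of the theta characteristic of `N`). -/
def EvenTheta (N : Matrix (Fin 4) (Fin 4) (MvPolynomial (Fin 3) ℂ)) : Prop :=
  ∃ (μ ρ : MvPolynomial (Fin 3) ℂ) (k : ℕ), ¬ N.det ∣ μ ∧
    (∀ π, Irreducible π → π ∣ μ → ∃ g h, ¬ π ∣ h ∧ π ∣ g ^ 2 - N.det * h ^ 2) ∧
    (ρ = μ ∨ ρ = μ * N.adjugate 3 3) ∧ ρ.IsHomogeneous (2 * k + 3) ∧
    EvenDim N.det {s | s.IsHomogeneous (k + 3) ∧
      ∃ G : MvPolynomial (Fin 3) ℂ, G.IsHomogeneous 3 ∧ N.det ∣ s ^ 2 - ρ * G}

/-- `{F = 0}` contains a plane such that the quadric surface bundle given by the projection from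
this plane, with symmetric matrix `N`, has a rational section, or such that its discriminant sextic
`{det N = 0}` is smooth and one of the theta characteristics of this sextic given by `N` and by the
curves which split in the double plane branched over it is even. -/
def SectionOrEvenTheta (F : MvPolynomial (Fin 6) ℂ) : Prop :=
  ∃ (A B : Matrix (Fin 6) (Fin 3) ℂ) (N : Matrix (Fin 4) (Fin 4) (MvPolynomial (Fin 3) ℂ)),
    (fromCols A B).rank = 6 ∧ N.IsSymm ∧
    (∀ (y z : Fin 3 → ℂ) (s : ℂ), eval (A *ᵥ y + s • B *ᵥ z) F =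
      s * (![y 0, y 1, y 2, s] ⬝ᵥ N.map (eval z) *ᵥ ![y 0, y 1, y 2, s])) ∧
    (RationalSection N ∨
      (∀ z : Fin 3 → ℂ, eval z N.det = 0 → (∀ i, eval z (pderiv i N.det) = 0) → ∀ i, z i = 0) ∧
        EvenTheta N)

/-- **Gale dual smooth cubic fourfolds are birational.**  Let `X = {det B + l₀ l₁ l₂ = 0}` and
`X' = {det B' - l'₀ l'₁ l'₂ = 0}` be smooth and Gale dual.  Then `X` and `X'` are birational; `X` is
rational if and only if `X'` is; and this is so if `X'` contains a plane whose quadric surface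
bundle has a rational section, or gives an even theta characteristic of a smooth discriminant
sextic. -/
theorem result (B B' : Matrix (Fin 3) (Fin 3) (MvPolynomial (Fin 6) ℂ))
    (l l' : Fin 3 → MvPolynomial (Fin 6) ℂ) (hd : GaleDual B B' l l')
    (F F' : MvPolynomial (Fin 6) ℂ) (hF : F = B.det + l 0 * l 1 * l 2)
    (hF' : F' = B'.det - l' 0 * l' 1 * l' 2) (hs : SmoothCubic F) (hs' : SmoothCubic F') :
    Birational F F' ∧ (IsRational F ↔ IsRational F') ∧ (SectionOrEvenTheta F' → IsRational F) :=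
  Pool.Agent.Helper29.RS.SlimG.result B B' l l' hd F F' hF hF' hs hs'

end Pool.Agent.Results.MP_ffd2c1_ag.GaleDuality
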