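import Pool.Agent.Helper29.RS.SlimP

set_option autoImplicit false

namespace Pool.Agent.Results.MP_ffd2c1_ag.PlaneSmoothSextic

open MvPolynomial Matrix

/-- `{F = 0}` is rational: the affine equation `F (1, x₁, ..., x₅)` generates a prime ideal, and the
fraction field of the quotient is a purely transcendental extension of `ℂ` of degree four. -/
def IsRational (F : MvPolynomial (Fin 6) ℂ) : Prop :=
  (Ideal.span {aeval (Fin.cons 1 X : Fin 6 → MvPolynomial (Fin 5) ℂ) F}).IsPrime ∧
    Nonempty (FractionRing (MvPolynomial (Fin 5) ℂ ⧸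
        Ideal.span {aeval (Fin.cons 1 X : Fin 6 → MvPolynomial (Fin 5) ℂ) F}) ≃ₐ[ℂ]
      FractionRing (MvPolynomial (Fin 4) ℂ))

/-- The span of the set `S` modulo `δ` has even dimension. -/
def EvenDim (δ : MvPolynomial (Fin 3) ℂ) (S : Set (MvPolynomial (Fin 3) ℂ)) : Prop :=
  ∃ (n : ℕ) (b : Fin (2 * n) → MvPolynomial (Fin 3) ℂ), (∀ i, b i ∈ S) ∧
    (∀ c : Fin (2 * n) → ℂ, δ ∣ ∑ i, C (c i) * b i → ∀ i, c i = 0) ∧
    ∀ s ∈ S, ∃ c : Fin (2 * n) → ℂ, δ ∣ s - ∑ i, C (c i) * b i

/-- The quadric surface bundle over the plane with matrix `N` has a rational section. -/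
def RationalSection (N : Matrix (Fin 4) (Fin 4) (MvPolynomial (Fin 3) ℂ)) : Prop :=
  ∃ v : Fin 4 → MvPolynomial (Fin 3) ℂ, v ≠ 0 ∧ v ⬝ᵥ N *ᵥ v = 0

/-- There is a plane curve `{μ = 0}`, without the component `D = {det N = 0}`, all whose components
split in the double plane branched over `D` (`det N` is a square on each of them), which gives an
even theta characteristic on `D`.  The theta characteristic is that of the form `ρ` of odd degree
among `μ` and `μ * N.adjugate 3 3` (the cubic form `N.adjugate 3 3` cuts out twice the divisor of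
the section of the theta characteristic of `N`): if `ρ` has degree `2 k + 3` and cuts out twice a
divisor `Z` on `D`, the forms `s` of degree `k + 3` with `s ^ 2 = ρ * G` on `D` for a cubic form `G`
are the sections of the theta characteristic `O_D(k + 3)(-Z)`. -/
def EvenTheta (N : Matrix (Fin 4) (Fin 4) (MvPolynomial (Fin 3) ℂ)) : Prop :=
  ∃ (μ ρ : MvPolynomial (Fin 3) ℂ) (k : ℕ), ¬ N.det ∣ μ ∧
    (∀ π, Irreducible π → π ∣ μ → ∃ g h, ¬ π ∣ h ∧ π ∣ g ^ 2 - N.det * h ^ 2) ∧
    (ρ = μ ∨ ρ = μ * N.adjugate 3 3) ∧ ρ.IsHomogeneous (2 * k + 3) ∧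
    EvenDim N.det {s | s.IsHomogeneous (k + 3) ∧
      ∃ G : MvPolynomial (Fin 3) ℂ, G.IsHomogeneous 3 ∧ N.det ∣ s ^ 2 - ρ * G}

/-- A smooth complex cubic fourfold containing a plane, with smooth discriminant sextic
`D = {det N = 0}`, is rational if its quadric surface bundle has a rational section, or if one of the
theta characteristics of `D` given by `N` and by the curves which split in the double plane branched
over `D` is even.

The plane is the set of the points `A y`.  `N` is the symmetric matrix of the quadric surface bundle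
of the projection from the plane.  For these cubic fourfolds the last hypothesis is, by Hodge
theory and lattice theory (not formalised here), the existence of an associated K3 surface. -/
theorem result (F : MvPolynomial (Fin 6) ℂ) (hF : F.IsHomogeneous 3)
    (hs : ∀ x : Fin 6 → ℂ, (∀ i, eval x (pderiv i F) = 0) → ∀ i, x i = 0)
    (A B : Matrix (Fin 6) (Fin 3) ℂ) (hr : (fromCols A B).rank = 6)
    (N : Matrix (Fin 4) (Fin 4) (MvPolynomial (Fin 3) ℂ)) (hN : N.IsSymm)
    (hQ : ∀ (y z : Fin 3 → ℂ) (s : ℂ), eval (A *ᵥ y + s • B *ᵥ z) F =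
      s * (![y 0, y 1, y 2, s] ⬝ᵥ N.map (eval z) *ᵥ ![y 0, y 1, y 2, s]))
    (hD : ∀ z : Fin 3 → ℂ, eval z N.det = 0 → (∀ i, eval z (pderiv i N.det) = 0) → ∀ i, z i = 0)
    (hK : RationalSection N ∨ EvenTheta N) : IsRational F :=
  Pool.Agent.Helper29.RS.SlimP.result F hF hs A B hr N hN hQ hD hK

end Pool.Agent.Results.MP_ffd2c1_ag.PlaneSmoothSextic
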