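import Pool.Agent.Helper69.SX.Crisp

set_option autoImplicit false

namespace Pool.Agent.Results.MP_ffd2c1_ag.SexticFibration

open MvPolynomial Module Matrix

/-- The vector `x = (x₁, x₂, w)` of the coordinates `(x₁, x₂, y₁, y₂, w, z)`. -/
noncomputable def x : Fin 3 → MvPolynomial (Fin 6) ℂ := ![X 0, X 1, X 4]

/-- The vector `y = (y₁, y₂, w)`. -/
noncomputable def y : Fin 3 → MvPolynomial (Fin 6) ℂ := ![X 2, X 3, X 4]

/-- The `3 × 3` matrix with the rows `uᵀ A i`, where `z` is added to the entry `(0, 2)`. -/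
noncomputable def M (A : Fin 3 → Matrix (Fin 3) (Fin 3) ℂ) (u : Fin 3 → MvPolynomial (Fin 6) ℂ) :
    Matrix (Fin 3) (Fin 3) (MvPolynomial (Fin 6) ℂ) :=
  Matrix.of fun i j => (∑ k, u k * C (A i k j)) + if i = 0 ∧ j = 2 then X 5 else 0

/-- The quadratic forms `Q 0 = xᵀ A 0 y + w z`, `Q 1 = xᵀ A 1 y`, `Q 2 = xᵀ A 2 y`. -/
noncomputable def Q (A : Fin 3 → Matrix (Fin 3) (Fin 3) ℂ) (i : Fin 3) : MvPolynomial (Fin 6) ℂ :=
  (∑ j, ∑ k, x j * C (A i j k) * y k) + if i = 0 then X 4 * X 5 else 0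

/-- The field `ℂ(T₁, T₂)` of rational functions of the plane. -/
abbrev Plane : Type := FractionRing (MvPolynomial (Fin 2) ℂ)

/-- The generic point `(1, T₁, T₂)` of the plane. -/
noncomputable def T (i : Fin 3) : Plane :=
  algebraMap (MvPolynomial (Fin 2) ℂ) Plane (![1, X 0, X 1] i)

/-- **Cubic fourfolds fibred in nodal sextic del Pezzo surfaces.**

Let `X = {F = 0}` be a smooth complex cubic fourfold without planes, where, in the coordinates
`(x₁, x₂, y₁, y₂, w, z)`, `F = a det M + b det M' + l 0 * Q 0 + l 1 * Q 1 + l 2 * Q 2` for three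
`3 × 3` matrices `A i`, two numbers `a, b` and three linear forms `l i` (all of them arbitrary).
If the rational map `(Q 0 : Q 1 : Q 2)` from `X` to the plane has a multisection of odd degree
(a point `p` of the generic fibre outside of the base locus, with values in a field `L` of odd
degree over `ℂ(T₁, T₂)`), then `X` is rational. -/
theorem result (A : Fin 3 → Matrix (Fin 3) (Fin 3) ℂ) (a b : ℂ)
    (l : Fin 3 → MvPolynomial (Fin 6) ℂ) (hl : ∀ i, (l i).IsHomogeneous 1)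
    (F : MvPolynomial (Fin 6) ℂ)
    (hF : F = C a * (M A x).det + C b * (M (fun i => (A i)ᵀ) y).det + ∑ i, l i * Q A i)
    (hs : ∀ v : Fin 6 → ℂ, v ≠ 0 → ∃ i, eval v (pderiv i F) ≠ 0)
    (hP : ∀ B : Matrix (Fin 6) (Fin 3) ℂ, B.rank = 3 → ∃ s, eval (B *ᵥ s) F ≠ 0)
    (L : Type) [Field L] [Algebra ℂ L] [Algebra Plane L] [IsScalarTower ℂ Plane L]
    (hL : Odd (finrank Plane L)) (p : Fin 6 → L) (m : L) (hm : m ≠ 0) (hp : aeval p F = 0)
    (ht : ∀ i, aeval p (Q A i) = m * algebraMap Plane L (T i)) :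
    (Ideal.span {aeval (Fin.cons 1 X : Fin 6 → MvPolynomial (Fin 5) ℂ) F}).IsPrime ∧
      Nonempty (FractionRing (MvPolynomial (Fin 5) ℂ ⧸
          Ideal.span {aeval (Fin.cons 1 X : Fin 6 → MvPolynomial (Fin 5) ℂ) F}) ≃ₐ[ℂ]
        FractionRing (MvPolynomial (Fin 4) ℂ)) :=
  Pool.Agent.Helper69.SX.Crisp.main A a b l hl F hF hs hP L hL p m hm hp ht

end Pool.Agent.Results.MP_ffd2c1_ag.SexticFibration
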